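import Pool.Agent.K1H54.NU.Stm

/-!
# Limits of truncated solutions are Leray-Hopf solutions
-/

open Set Filter Topology MeasureTheory
open scoped ENNReal

set_option autoImplicit false

namespace Pool.Agent.K1H68.NU

open Pool.Agent.K1H54.NU

/-! ### Continuity of the vector field -/

theorem ap_eq {I : Type} (sh : I → ℕ) (ty : I → Bool) (ρ : ℕ → ℕ) (b : Bool) (n : ℕ)
    (hf : {i | sh i = n ∧ ty i = b}.Finite) (z : I → ℝ) :
    ap sh ty ρ b n z = ∑ i ∈ hf.toFinset, fl sh ty ρ b n i * z i := by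
  unfold ap
  refine tsum_eq_sum fun i hi => ?_
  have h : ¬ (sh i = n ∧ ty i = b) := by simpa using hi
  simp [fl, h]

theorem Y_cont (G : GS) (n : ℕ) : Continuous (G.Y n) := by
  have h : G.Y n = fun x => ∑ i ∈ (G.fin n true).toFinset,
      fl G.sh G.ty G.ρ true n i * x (Sum.inl i) := by
    funext x
    exact ap_eq _ _ _ _ _ (G.fin n true) _
  rw [h]
  fun_prop

theorem Z_cont (G : GS) (n : ℕ) : Continuous (G.Z n) := by
  have h : G.Z n = fun x => ∑ i ∈ (G.fin n false).toFinset,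
      fl G.sh G.ty G.ρ false n i * x (Sum.inl i) := by
    funext x
    exact ap_eq _ _ _ _ _ (G.fin n false) _
  rw [h]
  fun_prop

theorem P_cont (G : GS) (n : ℕ) : Continuous (G.P n) := by
  have h : G.P n = fun x => ∑ i ∈ (G.fin' n true).toFinset,
      fl G.sh' G.ty' G.ρ' true n i * x (Sum.inr i) := by
    funext x
    exact ap_eq _ _ _ _ _ (G.fin' n true) _
  rw [h]
  fun_prop

theorem vf_cont (G : GS) (i : G.I ⊕ G.J) : Continuous fun x => G.vf x i := by
  rcases i with i | j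
  · simp only [GS.vf]
    have h1 := Z_cont G (G.sh i - 1)
    have h2 := Z_cont G (G.sh i)
    have h3 := Y_cont G (G.sh i)
    have h4 := Y_cont G (G.sh i + 1)
    have h5 := P_cont G (G.sh i)
    generalize G.Z (G.sh i - 1) = f1 at *
    generalize G.Z (G.sh i) = f2 at *
    generalize G.Y (G.sh i) = f3 at *
    generalize G.Y (G.sh i + 1) = f4 at *
    generalize G.P (G.sh i) = f5 at *
    split_ifs <;> fun_prop
  · simp only [GS.vf]
    have h1 := P_cont G (G.sh' j - 1)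
    have h2 := P_cont G (G.sh' j)
    have h3 := P_cont G (G.sh' j + 1)
    have h4 := Z_cont G (G.sh' j)
    generalize G.P (G.sh' j - 1) = f1 at *
    generalize G.P (G.sh' j) = f2 at *
    generalize G.P (G.sh' j + 1) = f3 at *
    generalize G.Z (G.sh' j) = f4 at *
    split_ifs <;> fun_prop

/-- the right-hand side -/
noncomputable def rhs (G : GS) (i : G.I ⊕ G.J) (x : G.I ⊕ G.J → ℝ) : ℝ :=
  -(G.D i * x i) + G.vf x i

theorem rhs_cont (G : GS) (i : G.I ⊕ G.J) : Continuous (rhs G i) := by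
  unfold rhs
  exact (continuous_const.mul (continuous_apply i)).neg.add (vf_cont G i)

/-! ### Lower semicontinuity -/

theorem add_liminf (f g : ℕ → ℝ≥0∞) :
    liminf f atTop + liminf g atTop ≤ liminf (fun n => f n + g n) atTop := by
  rw [liminf_eq_iSup_iInf_of_nat', liminf_eq_iSup_iInf_of_nat', liminf_eq_iSup_iInf_of_nat',
    ENNReal.iSup_add_iSup_of_monotone]
  · exact iSup_mono fun n => le_iInf fun i => add_le_add (iInf_le _ i) (iInf_le _ i)
  · intro a b hab
    refine le_iInf fun i => (iInf_le _ (i + (b - a))).trans_eq ?_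
    congr 1
    omega
  · intro a b hab
    refine le_iInf fun i => (iInf_le _ (i + (b - a))).trans_eq ?_
    congr 1
    omega

theorem en_lsc (G : GS) : LowerSemicontinuous G.en := by
  unfold GS.en
  refine lowerSemicontinuous_tsum fun i => Continuous.lowerSemicontinuous ?_
  exact ENNReal.continuous_ofReal.comp ((continuous_apply i).pow 2)

theorem ds_lsc (G : GS) : LowerSemicontinuous G.ds := by
  unfold GS.ds
  refine lowerSemicontinuous_tsum fun i => Continuous.lowerSemicontinuous ?_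
  exact ENNReal.continuous_ofReal.comp (continuous_const.mul ((continuous_apply i).pow 2))

theorem le_liminf_of_lsc {X : Type*} [TopologicalSpace X] {f : X → ℝ≥0∞}
    (hf : LowerSemicontinuous f) {u : ℕ → X} {v : X} (h : Tendsto u atTop (𝓝 v)) :
    f v ≤ liminf (fun k => f (u k)) atTop := by
  refine (lowerSemicontinuousAt_iff_le_liminf.1 (hf v)).trans ?_
  have h1 : liminf (fun k => f (u k)) atTop = liminf f (map u atTop) := rfl
  rw [h1]
  exact liminf_le_liminf_of_le h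

theorem ds_meas (G : GS) [Countable (G.I ⊕ G.J)] (u : ℝ → G.I ⊕ G.J → ℝ)
    (hu : ∀ i, ContinuousOn (fun τ => u τ i) (Ici 0)) :
    Measurable fun τ => G.ds (u (max τ 0)) := by
  unfold GS.ds
  refine Measurable.tsum fun i => ?_
  have h1 : Continuous fun τ : ℝ => u (max τ 0) i :=
    (hu i).comp_continuous (by fun_prop) (fun τ => le_max_right τ 0)
  exact (ENNReal.continuous_ofReal.comp (continuous_const.mul (h1.pow 2))).measurable

theorem ds_max (G : GS) (u : ℝ → G.I ⊕ G.J → ℝ) {s t : ℝ} (hs : 0 ≤ s) :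
    ∫⁻ τ in Ioc s t, G.ds (u (max τ 0)) = ∫⁻ τ in Ioc s t, G.ds (u τ) := by
  refine setLIntegral_congr_fun measurableSet_Ioc fun τ hτ => ?_
  rw [max_eq_left (hs.trans hτ.1.le)]

theorem lsc (G : GS) [Countable (G.I ⊕ G.J)] (u : ℕ → ℝ → G.I ⊕ G.J → ℝ)
    (v : ℝ → G.I ⊕ G.J → ℝ) (hu : ∀ k i, ContinuousOn (fun τ => u k τ i) (Ici 0))
    (h : ∀ τ, 0 ≤ τ → ∀ i, Tendsto (fun k => u k τ i) atTop (𝓝 (v τ i))) {s t : ℝ}
    (hs : 0 ≤ s) (hst : s ≤ t) :
    G.en (v t) + 2 * ∫⁻ τ in Ioc s t, G.ds (v τ) ≤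
      liminf (fun k => G.en (u k t) + 2 * ∫⁻ τ in Ioc s t, G.ds (u k τ)) atTop := by
  refine le_trans (add_le_add ?_ ?_) (add_liminf _ _)
  · exact le_liminf_of_lsc (en_lsc G) (tendsto_pi_nhds.2 (h t (hs.trans hst)))
  · have h1 : ∫⁻ τ in Ioc s t, G.ds (v τ) ≤
        ∫⁻ τ in Ioc s t, liminf (fun k => G.ds (u k (max τ 0))) atTop := by
      refine setLIntegral_mono' measurableSet_Ioc fun τ hτ => ?_
      have h0 : 0 ≤ τ := hs.trans hτ.1.le
      rw [max_eq_left h0]
      exact le_liminf_of_lsc (ds_lsc G) (tendsto_pi_nhds.2 (h τ h0))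
    have h2 : ∫⁻ τ in Ioc s t, liminf (fun k => G.ds (u k (max τ 0))) atTop ≤
        liminf (fun k => ∫⁻ τ in Ioc s t, G.ds (u k (max τ 0))) atTop :=
      lintegral_liminf_le fun k => ds_meas G (u k) (hu k)
    simp only [ds_max G _ hs] at h2
    have h3 : (2 : ℝ≥0∞) * liminf (fun k => ∫⁻ τ in Ioc s t, G.ds (u k τ)) atTop ≤
        liminf (fun k => 2 * ∫⁻ τ in Ioc s t, G.ds (u k τ)) atTop := by
      simp only [two_mul]
      exact add_liminf _ _
    exact (mul_le_mul_right (h1.trans h2) 2).trans h3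

/-! ### Tails -/

theorem tail (G : GS) (hD : ∀ M, {i | G.D i ≤ M}.Finite) (u : ℕ → G.I ⊕ G.J → ℝ)
    (v : G.I ⊕ G.J → ℝ) (h : ∀ i, Tendsto (fun k => u k i) atTop (𝓝 (v i))) (C : ℝ≥0∞)
    (hC : C ≠ ⊤) (hds : ∀ k, G.ds (u k) ≤ C) :
    liminf (fun k => G.en (u k)) atTop ≤ G.en v := by
  classical
  refine ENNReal.le_of_forall_pos_le_add fun ε hε _ => ?_
  have hε' : (0 : ℝ) < ε := hε
  obtain ⟨A, hA⟩ : ∃ A : ℝ, A = (C.toReal + 1) / ε := ⟨_, rfl⟩
  have hC0 : 0 ≤ C.toReal := ENNReal.toReal_nonneg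
  have hA0 : 0 < A := by rw [hA]; positivity
  set F : Finset (G.I ⊕ G.J) := (hD A).toFinset with hF
  have hmem : ∀ i, i ∈ F ↔ G.D i ≤ A := fun i => by rw [hF]; simp
  have h1 : ∀ k, G.en (u k) ≤ ∑ i ∈ F, ENNReal.ofReal (u k i ^ 2) +
      ENNReal.ofReal A⁻¹ * G.ds (u k) := by
    intro k
    have h2 : ∀ i, ENNReal.ofReal (u k i ^ 2) ≤
        (if i ∈ F then ENNReal.ofReal (u k i ^ 2) else 0) +
          ENNReal.ofReal A⁻¹ * ENNReal.ofReal (G.D i * u k i ^ 2) := by
      intro i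
      by_cases hi : i ∈ F
      · rw [if_pos hi]
        exact le_self_add
      · rw [if_neg hi, zero_add, ← ENNReal.ofReal_mul (inv_nonneg.2 hA0.le)]
        refine ENNReal.ofReal_le_ofReal ?_
        have h3 : A < G.D i := by
          rw [hmem] at hi
          exact not_le.1 hi
        have h4 : 0 ≤ u k i ^ 2 := sq_nonneg _
        have h5 : 1 ≤ A⁻¹ * G.D i := by
          rw [inv_mul_eq_div, le_div_iff₀ hA0]
          linarith
        calc u k i ^ 2 = 1 * u k i ^ 2 := (one_mul _).symm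
          _ ≤ A⁻¹ * G.D i * u k i ^ 2 := mul_le_mul_of_nonneg_right h5 h4
          _ = A⁻¹ * (G.D i * u k i ^ 2) := by ring
    have h6 : G.en (u k) ≤ ∑' i, ((if i ∈ F then ENNReal.ofReal (u k i ^ 2) else 0) +
          ENNReal.ofReal A⁻¹ * ENNReal.ofReal (G.D i * u k i ^ 2)) := ENNReal.tsum_le_tsum h2
    refine h6.trans (le_of_eq ?_)
    rw [ENNReal.tsum_add, ENNReal.tsum_mul_left]
    congr 1
    rw [tsum_eq_sum (s := F) (fun i hi => if_neg hi)]
    exact Finset.sum_congr rfl fun i hi => if_pos hi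
  have h2 : Tendsto (fun k => ∑ i ∈ F, ENNReal.ofReal (u k i ^ 2) + ENNReal.ofReal A⁻¹ * C)
      atTop (𝓝 (∑ i ∈ F, ENNReal.ofReal (v i ^ 2) + ENNReal.ofReal A⁻¹ * C)) := by
    refine Tendsto.add_const _ ?_
    exact tendsto_finsetSum _ fun i _ =>
      (ENNReal.continuous_ofReal.tendsto _).comp ((h i).pow 2)
  have h3 : liminf (fun k => G.en (u k)) atTop ≤
      ∑ i ∈ F, ENNReal.ofReal (v i ^ 2) + ENNReal.ofReal A⁻¹ * C := by
    rw [← h2.liminf_eq]
    refine liminf_le_liminf (Eventually.of_forall fun k => (h1 k).trans ?_)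
    exact add_le_add le_rfl (mul_le_mul_right (hds k) _)
  refine h3.trans (add_le_add ?_ ?_)
  · exact ENNReal.sum_le_tsum F
  · rw [← ENNReal.ofReal_toReal hC, ← ENNReal.ofReal_mul (inv_nonneg.2 hA0.le),
      ← ENNReal.ofReal_coe_nnreal]
    refine ENNReal.ofReal_le_ofReal ?_
    rw [hA, inv_div, div_mul_eq_mul_div, div_le_iff₀ (by positivity)]
    nlinarith

theorem contOn_of_lip {f : ℝ → ℝ} {M : ℝ}
    (h : ∀ s t, 0 ≤ s → 0 ≤ t → |f t - f s| ≤ M * |t - s|) : ContinuousOn f (Ici 0) := by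
  have h1 : LipschitzOnWith (Real.toNNReal (max M 0)) f (Ici 0) := by
    refine LipschitzOnWith.of_dist_le_mul fun x hx y hy => ?_
    rw [Real.dist_eq, Real.dist_eq, Real.coe_toNNReal _ (le_max_right M 0)]
    refine (h y x hy hx).trans ?_
    exact mul_le_mul_of_nonneg_right (le_max_left M 0) (abs_nonneg _)
  exact h1.continuousOn

/-- the theorem -/
theorem t_CPT (h1 : S_AA) (h2 : S_TREN) : S_CPT := by
  classical
  intro G x₀ X hD hX hfin hlim hen
  have hcount : Countable (G.I ⊕ G.J) := by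
    have h3 : (⋃ n : ℕ, {i | G.D i ≤ (n : ℝ)}) = univ := by
      ext i
      simp only [mem_iUnion, mem_univ, iff_true]
      exact exists_nat_ge (G.D i)
    have h4 : (univ : Set (G.I ⊕ G.J)).Countable := by
      rw [← h3]
      exact countable_iUnion fun n => (hD n).countable
    exact countable_univ_iff.1 h4
  -- the energies are bounded
  obtain ⟨k0, hk0⟩ : ∃ k0, ∀ k, k0 ≤ k → G.en (X k 0) ≤ G.en x₀ + 1 := by
    have h3 : G.en x₀ < G.en x₀ + 1 := ENNReal.lt_add_right hfin one_ne_zero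
    obtain ⟨k0, hk⟩ := eventually_atTop.1 (hen.eventually_lt_const h3)
    exact ⟨k0, fun k hk' => (hk k hk').le⟩
  have hK : G.en x₀ + 1 ≠ ⊤ := ENNReal.add_ne_top.2 ⟨hfin, ENNReal.one_ne_top⟩
  obtain ⟨K, hKd⟩ : ∃ K : ℝ≥0∞, K = G.en x₀ + 1 := ⟨_, rfl⟩
  rw [← hKd] at hK hk0
  obtain ⟨C, hC⟩ : ∃ C : ℝ, C = √ K.toReal := ⟨_, rfl⟩
  have hC0 : 0 ≤ C := by rw [hC]; exact Real.sqrt_nonneg _
  have hent : ∀ k, k0 ≤ k → ∀ t, 0 ≤ t → G.en (X k t) + 2 * ∫⁻ τ in Ioc 0 t, G.ds (X k τ) ≤ K :=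
    fun k hk t ht => by
      rw [h2 G k (X k) (hX k) 0 t le_rfl ht]
      exact hk0 k hk
  have hbd : ∀ k, k0 ≤ k → ∀ t, 0 ≤ t → ∀ i, |X k t i| ≤ C := by
    intro k hk t ht i
    have h3 : ENNReal.ofReal (X k t i ^ 2) ≤ K := by
      refine le_trans ?_ (hent k hk t ht)
      refine le_trans ?_ le_self_add
      exact ENNReal.le_tsum (f := fun i => ENNReal.ofReal (X k t i ^ 2)) i
    have h4 : X k t i ^ 2 ≤ K.toReal := by
      rw [← ENNReal.ofReal_le_iff_le_toReal hK]
      exact h3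
    rw [hC]
    exact Real.abs_le_sqrt h4
  -- the bounds for the right-hand side
  have hB : ∀ i, ∃ B : ℝ, ∀ x : G.I ⊕ G.J → ℝ, (∀ j, |x j| ≤ C) → |rhs G i x| ≤ B := by
    intro i
    have h3 : IsCompact (univ.pi fun _ : G.I ⊕ G.J => Icc (-C) C) :=
      isCompact_univ_pi fun _ => isCompact_Icc
    obtain ⟨B, hB⟩ := h3.exists_bound_of_continuousOn (rhs_cont G i).continuousOn
    refine ⟨B, fun x hx => hB x ?_⟩
    intro j _
    exact abs_le.1 (hx j)
  choose B hB using hB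
  have hB0 : ∀ i, 0 ≤ B i := fun i => (abs_nonneg _).trans (hB i (fun _ => 0)
    (fun j => by rw [abs_zero]; exact hC0))
  have hder : ∀ k, k0 ≤ k → ∀ i, ∀ s t, 0 ≤ s → 0 ≤ t →
      |X k t i - X k s i| ≤ max C (B i) * |t - s| := by
    intro k hk i s t hs ht
    rcases Nat.lt_or_ge k (G.s i) with h | h
    · rw [(hX k).out t i h, (hX k).out s i h, sub_zero, abs_zero]
      positivity
    · have h3 := (convex_Ici (0 : ℝ)).norm_image_sub_le_of_norm_hasDerivWithin_le
        (f := fun τ => X k τ i) (f' := fun τ => rhs G i (X k τ)) (C := B i)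
        (fun τ hτ => (hX k).ode i h τ hτ) (fun τ hτ => hB i _ (hbd k hk τ hτ)) hs ht
      refine le_trans h3 ?_
      exact mul_le_mul_of_nonneg_right (le_max_right _ _) (norm_nonneg _)
  have hXc : ∀ k, k0 ≤ k → ∀ i, ContinuousOn (fun τ => X k τ i) (Ici 0) := fun k hk i =>
    contOn_of_lip (hder k hk i)
  obtain ⟨φ', g, hφ', hg⟩ := h1 (G.I ⊕ G.J) (fun n i t => X (n + k0) t i)
    (fun i => max C (B i)) hcount
    (fun n i t ht => (hbd (n + k0) (Nat.le_add_left _ _) t ht i).trans (le_max_left _ _))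
    (fun n i s t hs ht => hder (n + k0) (Nat.le_add_left _ _) i s t hs ht)
  set φ : ℕ → ℕ := fun k => φ' k + k0 with hφ
  have hφm : StrictMono φ := fun a b hab => Nat.add_lt_add_right (hφ' hab) k0
  have hφk : ∀ k, k0 ≤ φ k := fun k => Nat.le_add_left _ _
  have hφt : Tendsto φ atTop atTop := hφm.tendsto_atTop
  set x : ℝ → G.I ⊕ G.J → ℝ := fun t i => g i t with hx
  have hpt : ∀ τ, 0 ≤ τ → ∀ i, Tendsto (fun k => X (φ k) τ i) atTop (𝓝 (x τ i)) := by
    intro τ hτ i
    exact (hg i τ).tendsto_at ⟨hτ, le_rfl⟩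
  have hx0 : x 0 = x₀ := by
    funext i
    exact tendsto_nhds_unique (hpt 0 le_rfl i) ((hlim i).comp hφt)
  have hxlip : ∀ i, ∀ s t, 0 ≤ s → 0 ≤ t → |x t i - x s i| ≤ max C (B i) * |t - s| := by
    intro i s t hs ht
    refine le_of_tendsto ((hpt t ht i).sub (hpt s hs i)).abs (Eventually.of_forall fun k => ?_)
    exact hder (φ k) (hφk k) i s t hs ht
  have hxc : ∀ i, ContinuousOn (fun τ => x τ i) (Ici 0) := fun i => contOn_of_lip (hxlip i)
  have hrc : ∀ (z : ℝ → G.I ⊕ G.J → ℝ), (∀ i, ContinuousOn (fun τ => z τ i) (Ici 0)) →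
      ∀ i, ContinuousOn (fun τ => rhs G i (z τ)) (Ici 0) := fun z hz i =>
    (rhs_cont G i).comp_continuousOn (continuousOn_pi.2 hz)
  -- the integral equation
  have hint : ∀ i t, 0 ≤ t → x t i = x₀ i + ∫ τ in (0 : ℝ)..t, rhs G i (x τ) := by
    intro i t ht
    have h3 : ∀ k, G.s i ≤ φ k → X (φ k) t i = X (φ k) 0 i +
        ∫ τ in (0 : ℝ)..t, rhs G i (X (φ k) τ) := by
      intro k hk
      have h4 := intervalIntegral.integral_eq_sub_of_hasDeriv_right_of_le ht
        (f := fun τ => X (φ k) τ i) (f' := fun τ => rhs G i (X (φ k) τ))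
        ((hXc (φ k) (hφk k) i).mono Icc_subset_Ici_self)
        (fun τ hτ => ((hX (φ k)).ode i hk τ hτ.1.le).mono
          (fun y hy => (hτ.1.trans hy).le))
        (((hrc (X (φ k)) (hXc (φ k) (hφk k)) i).mono (by
          rw [uIcc_of_le ht]
          exact Icc_subset_Ici_self)).intervalIntegrable)
      rw [h4]
      ring
    have h4 : Tendsto (fun k => ∫ τ in (0 : ℝ)..t, rhs G i (X (φ k) τ)) atTop
        (𝓝 (∫ τ in (0 : ℝ)..t, rhs G i (x τ))) := by
      refine intervalIntegral.tendsto_integral_filter_of_dominated_convergence (fun _ => B i)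
        (Eventually.of_forall fun k => ?_) (Eventually.of_forall fun k => ?_)
        intervalIntegrable_const ?_
      · refine ContinuousOn.aestronglyMeasurable ?_ measurableSet_uIoc
        refine (hrc (X (φ k)) (hXc (φ k) (hφk k)) i).mono ?_
        rw [uIoc_of_le ht]
        exact fun τ hτ => hτ.1.le
      · refine Eventually.of_forall fun τ hτ => ?_
        rw [uIoc_of_le ht] at hτ
        exact hB i _ (hbd (φ k) (hφk k) τ hτ.1.le)
      · refine Eventually.of_forall fun τ hτ => ?_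
        rw [uIoc_of_le ht] at hτ
        exact ((rhs_cont G i).tendsto _).comp (tendsto_pi_nhds.2 (hpt τ hτ.1.le))
    have h5 : Tendsto (fun k => X (φ k) 0 i + ∫ τ in (0 : ℝ)..t, rhs G i (X (φ k) τ)) atTop
        (𝓝 (x₀ i + ∫ τ in (0 : ℝ)..t, rhs G i (x τ))) := ((hlim i).comp hφt).add h4
    refine tendsto_nhds_unique (hpt t ht i) (h5.congr' ?_)
    filter_upwards [hφt.eventually_ge_atTop (G.s i)] with k hk
    exact (h3 k hk).symm
  have hode : ∀ i t, 0 ≤ t → HasDerivWithinAt (fun τ => x τ i) (rhs G i (x t)) (Ici 0) t := by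
    intro i t ht
    have h3 : Continuous fun τ : ℝ => rhs G i (x (max τ 0)) :=
      (hrc x hxc i).comp_continuous (by fun_prop) (fun τ => le_max_right τ 0)
    have h4 : HasDerivAt (fun u => x₀ i + ∫ τ in (0 : ℝ)..u, rhs G i (x (max τ 0)))
        (rhs G i (x (max t 0))) t :=
      (intervalIntegral.integral_hasDerivAt_right (h3.intervalIntegrable _ _)
        (h3.stronglyMeasurableAtFilter _ _) h3.continuousAt).const_add _
    rw [max_eq_left ht] at h4
    refine h4.hasDerivWithinAt.congr_of_mem (fun u hu => ?_) ht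
    rw [hint i u hu]
    congr 1
    refine intervalIntegral.integral_congr fun τ hτ => ?_
    rw [uIcc_of_le hu] at hτ
    rw [max_eq_left hτ.1]
  -- the energy inequality
  have hlsc : ∀ (ψ : ℕ → ℕ), StrictMono ψ → ∀ s t, 0 ≤ s → s ≤ t →
      G.en (x t) + 2 * ∫⁻ τ in Ioc s t, G.ds (x τ) ≤
        liminf (fun k => G.en (X (φ (ψ k)) s)) atTop := by
    intro ψ hψ s t hs hst
    have h3 := lsc G (fun k => X (φ (ψ k))) x (fun k i => hXc _ (hφk _) i)
      (fun τ hτ i => (hpt τ hτ i).comp hψ.tendsto_atTop) hs hst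
    refine h3.trans (le_of_eq ?_)
    congr 1
    funext k
    exact h2 G _ _ (hX _) s t hs hst
  refine ⟨φ, x, hφm, hx0, ⟨hode, ?_, ?_, ?_⟩, hg⟩
  · rw [hx0]; exact hfin
  · intro t ht
    refine (hlsc id strictMono_id 0 t le_rfl ht).trans ?_
    rw [hx0]
    exact ((hen.comp hφt).liminf_eq).le
  · -- almost every initial time
    have hmeas : Measurable fun τ => liminf (fun k => G.ds (X (φ k) (max τ 0))) atTop :=
      Measurable.liminf fun k => ds_meas G (X (φ k)) (hXc (φ k) (hφk k))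
    have hae : ∀ n : ℕ, ∀ᵐ τ ∂volume.restrict (Ioc (0 : ℝ) n),
        liminf (fun k => G.ds (X (φ k) (max τ 0))) atTop < ⊤ := by
      intro n
      refine ae_lt_top hmeas ?_
      have h3 : ∫⁻ τ in Ioc (0 : ℝ) n, liminf (fun k => G.ds (X (φ k) (max τ 0))) atTop ≤
          liminf (fun k => ∫⁻ τ in Ioc (0 : ℝ) n, G.ds (X (φ k) (max τ 0))) atTop :=
        lintegral_liminf_le fun k => ds_meas G (X (φ k)) (hXc (φ k) (hφk k))
      have h4 : liminf (fun k => ∫⁻ τ in Ioc (0 : ℝ) n, G.ds (X (φ k) (max τ 0))) atTop ≤ K := by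
        refine (liminf_le_liminf (v := fun _ => K) (Eventually.of_forall fun k => ?_)).trans
          (le_of_eq ?_)
        · rw [ds_max G _ le_rfl]
          have h5 := hent (φ k) (hφk k) n (Nat.cast_nonneg n)
          refine le_trans ?_ (le_trans le_add_self h5)
          rw [two_mul]
          exact le_self_add
        · exact liminf_const K
      exact ne_top_of_le_ne_top hK (h3.trans h4)
    have hae2 : ∀ᵐ τ ∂volume.restrict (Ioi (0 : ℝ)),
        liminf (fun k => G.ds (X (φ k) (max τ 0))) atTop < ⊤ := by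
      have h3 : Ioi (0 : ℝ) = ⋃ n : ℕ, Ioc (0 : ℝ) n := by
        ext τ
        simp only [mem_Ioi, mem_iUnion, mem_Ioc, exists_and_left]
        exact ⟨fun h => ⟨h, exists_nat_ge τ⟩, fun h => h.1⟩
      rw [h3, ae_restrict_iUnion_iff]
      exact hae
    filter_upwards [hae2, ae_restrict_mem measurableSet_Ioi] with s hs1 hs2
    have hs0 : 0 ≤ s := le_of_lt hs2
    rw [max_eq_left hs0] at hs1
    obtain ⟨C', hC1, hC2⟩ := exists_between hs1
    obtain ⟨ψ, hψ, hψ'⟩ := extraction_of_frequently_atTop (frequently_lt_of_liminf_lt (by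
      isBoundedDefault) hC1)
    intro t hst
    refine (hlsc ψ hψ s t hs0 hst).trans ?_
    exact tail G hD (fun k => X (φ (ψ k)) s) (x s)
      (fun i => (hpt s hs0 i).comp hψ.tendsto_atTop) C' hC2.ne (fun k => (hψ' k).le)

end Pool.Agent.K1H68.NU

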